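import Pool.Agent.Q116.CL.Defs

/-!
Computations with oracles, Kleene's `O` determines the oracle.
-/

set_option autoImplicit false

namespace Pool.Agent.Q116.CL

open Encodable

theorem ini_getD (x : ℕ → Bool) {l k : ℕ} : (ini x l).getD k false = (decide (k < l) && x k) := by
  unfold ini
  rw [List.getD_eq_getElem?_getD]
  by_cases h : k < l
  · simp [h]
  · simp [h]

theorem Phi_sound {e : ℕ} {x : ℕ → Bool} {m v : ℕ} (h : v ∈ Phi e x m) :
    ∃ l, v ∈ Nat.Partrec.Code.eval (Denumerable.ofNat Nat.Partrec.Code e) (encode (ini x l, m)) := by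
  obtain ⟨s, hs⟩ := Nat.rfindOpt_spec h
  exact ⟨_, Nat.Partrec.Code.evaln_sound hs⟩

theorem Phi_complete {e : ℕ} {x : ℕ → Bool} {m w : ℕ}
    (h : ∀ l, ∀ v ∈ Nat.Partrec.Code.eval (Denumerable.ofNat Nat.Partrec.Code e)
      (encode (ini x l, m)), v = w)
    (h' : ∃ l, w ∈ Nat.Partrec.Code.eval (Denumerable.ofNat Nat.Partrec.Code e)
      (encode (ini x l, m))) : w ∈ Phi e x m := by
  obtain ⟨l, hl⟩ := h'
  obtain ⟨t, ht⟩ := Nat.Partrec.Code.evaln_complete.1 hl
  have hd : (Phi e x m).Dom := by
    refine Nat.rfindOpt_dom.2 ⟨Nat.pair t l, w, ?_⟩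
    simpa using ht
  have h2 : (Phi e x m).get hd ∈ Phi e x m := Part.get_mem hd
  obtain ⟨l', hl'⟩ := Phi_sound h2
  rwa [h l' _ hl'] at h2

/-- The index of a partial computable function of finite sequences and numbers. -/
theorem exists_index {g : List Bool × ℕ →. ℕ} (hg : Partrec g) :
    ∃ e : ℕ, ∀ p, Nat.Partrec.Code.eval (Denumerable.ofNat Nat.Partrec.Code e) (encode p) = g p := by
  obtain ⟨c, hc⟩ := Nat.Partrec.Code.exists_code.1 hg
  refine ⟨encode c, fun p => ?_⟩
  rw [Denumerable.ofNat_encode, hc]
  simp only [encodek, Part.coe_some, Part.bind_some]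
  exact Part.map_id' (fun _ => rfl) _

/-- The notation of the number `m`. -/
def tow : ℕ → ℕ
  | 0 => 1
  | m + 1 => 2 ^ tow m

theorem tow_prim : Primrec tow := by
  have h2 : Primrec fun k : ℕ => 2 ^ k := by
    have h := (Primrec.nat_rec₁ (f := fun _ IH : ℕ => 2 * IH) 1
      (Primrec.nat_mul.comp₂ (Primrec.const 2).to₂ Primrec₂.right))
    refine h.of_eq fun k => ?_
    induction k with
    | zero => rfl
    | succ k ih =>
      rw [pow_succ, ← ih]
      exact mul_comm _ _
  refine (Primrec.nat_rec₁ (f := fun _ IH : ℕ => 2 ^ IH) 1 (h2.comp₂ Primrec₂.right)).of_eq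
    fun m => ?_
  induction m with
  | zero => rfl
  | succ m ih =>
    change 2 ^ _ = 2 ^ _
    rw [← ih]

theorem KO_tow (x : ℕ → Bool) (m : ℕ) : KO x (tow m) := by
  induction m with
  | zero => exact KO.one
  | succ m ih => exact KO.succ ih

theorem exists_test (n : ℕ) : ∃ e, (∀ x, x n = true → KO x (3 * 5 ^ e)) ∧
    ∀ x, x n = false → ¬ KO x (3 * 5 ^ e) := by
  have hg : Partrec fun p : List Bool × ℕ =>
      (((if p.1.getD n false = true then some (tow p.2) else none) : Option ℕ) : Part ℕ) := by
    refine Computable.ofOption (Primrec.to_comp ?_)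
    refine Primrec.ite (Primrec.eq.comp ((Primrec.list_getD false).comp Primrec.fst
      (Primrec.const n)) (Primrec.const true)) ?_ (Primrec.const none)
    exact Primrec.option_some.comp (tow_prim.comp Primrec.snd)
  obtain ⟨e, he⟩ := exists_index hg
  refine ⟨e, fun x hx => ?_, fun x hx => ?_⟩
  · have h1 : ∀ m, tow m ∈ Phi e x m := by
      intro m
      refine Phi_complete (fun l v hv => ?_) ⟨n + 1, ?_⟩
      · rw [he] at hv
        by_cases h : (ini x l).getD n false = true
        · simp only [h, if_true, Part.coe_some, Part.mem_some_iff] at hv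
          exact hv
        · simp only [h] at hv
          simp at hv
      · rw [he]
        have h : (ini x (n + 1)).getD n false = true := by
          rw [ini_getD]
          simp [hx]
        simp only [h, if_true, Part.coe_some, Part.mem_some_iff]
    exact KO.lim tow h1 (KO_tow x) fun m => KLt.succ (KO_tow x m)
  · intro h
    generalize hk : 3 * 5 ^ e = k at h
    cases h with
    | one =>
      have : 1 ≤ 5 ^ e := Nat.one_le_pow _ _ (by norm_num)
      omega
    | succ h =>
      have h3 : 3 ∣ 2 ^ _ := Dvd.intro _ hk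
      have := (Nat.Prime.dvd_of_dvd_pow Nat.prime_three h3)
      omega
    | @lim e' f h1 h2 h3 =>
      have h4 : e' = e := by
        have : 5 ^ e = 5 ^ e' := by omega
        exact (Nat.pow_right_injective (le_refl 2 |>.trans (by norm_num)) this).symm
      subst h4
      obtain ⟨l, hl⟩ := Phi_sound (h1 0)
      rw [he] at hl
      have h : ¬ (ini x l).getD n false = true := by
        rw [ini_getD]
        simp [hx]
      simp only [h] at hl
      simp at hl

theorem OBox_injective : Function.Injective OBox := by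
  intro x y h
  funext n
  obtain ⟨e, he1, he2⟩ := exists_test n
  have h1 : KO x (3 * 5 ^ e) ↔ KO y (3 * 5 ^ e) := by
    have := congrFun h (3 * 5 ^ e)
    unfold OBox at this
    simpa using this
  cases hx : x n <;> cases hy : y n
  · rfl
  · exact absurd (h1.2 (he1 y hy)) (he2 x hx)
  · exact absurd (h1.1 (he1 x hx)) (he2 y hy)
  · rfl

end Pool.Agent.Q116.CL
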