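import Mathlib

/-!
Functionals which clarify classes of countable structures, and Kleene's `O` relative to a real.
-/

set_option autoImplicit false

namespace Pool.Agent.Q116.CL

open Encodable

/-- The initial segment of length `n` of `x`. -/
def ini (x : ℕ → Bool) (n : ℕ) : List Bool := (List.range n).map x

/-- The partial function with the index `e` computed with the oracle `x`: the value at `m` is the
first output which is found if one runs, for `s = ⟨t, l⟩ = 0, 1, 2, …`, the partial computable
function with the index `e` for `t` steps on the input `(x ↾ l, m)`. -/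
def Phi (e : ℕ) (x : ℕ → Bool) (m : ℕ) : Part ℕ :=
  Nat.rfindOpt fun s => Nat.Partrec.Code.evaln s.unpair.1
    (Denumerable.ofNat Nat.Partrec.Code e) (encode (ini x s.unpair.2, m))

/-- The function `f` is Turing computable from the real `x`. -/
def ComputableFrom (f : ℕ → ℕ) (x : ℕ → Bool) : Prop := ∃ e, ∀ m, f m ∈ Phi e x m

/-- The join of two reals. -/
def join (x y : ℕ → Bool) : ℕ → Bool := fun n => if n % 2 = 0 then x (n / 2) else y (n / 2)

/-- A real `A` is the atomic diagram of the structure with the universe `ℕ` and the binary relation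
`{(m, n) : A ⟨m, n⟩ = 1}`; `i` is an isomorphism of the structures given by `A` and `B`. -/
def IsIso (i : ℕ → ℕ) (A B : ℕ → Bool) : Prop :=
  Function.Bijective i ∧ ∀ m n, A (Nat.pair m n) = B (Nat.pair (i m) (i n))

/-- The class of the countable well-orderings: the set of all real numbers which are atomic diagrams
of well-orderings of `ℕ`. -/
def W : Set (ℕ → Bool) := {A | IsWellOrder ℕ fun m n => A (Nat.pair m n) = true}

/-- The functional `F` clarifies the class `K`. -/
def Clarifies (F : (ℕ → Bool) → (ℕ → Bool)) (K : Set (ℕ → Bool)) : Prop :=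
  ∀ A ∈ K, ∀ B ∈ K, (∃ i, IsIso i A B) → ∃ i, IsIso i A B ∧ ComputableFrom i (join (F A) (F B))

mutual

/-- Kleene's set `O` of notations for ordinals, relative to `x`. -/
inductive KO (x : ℕ → Bool) : ℕ → Prop
  | one : KO x 1
  | succ {a : ℕ} : KO x a → KO x (2 ^ a)
  | lim {e : ℕ} (f : ℕ → ℕ) : (∀ n, f n ∈ Phi e x n) → (∀ n, KO x (f n)) →
      (∀ n, KLt x (f n) (f (n + 1))) → KO x (3 * 5 ^ e)

/-- Kleene's relation `<_O` relative to `x`. -/
inductive KLt (x : ℕ → Bool) : ℕ → ℕ → Prop
  | succ {a : ℕ} : KO x a → KLt x a (2 ^ a)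
  | lim {e : ℕ} (f : ℕ → ℕ) (n : ℕ) : (∀ n, f n ∈ Phi e x n) → (∀ n, KO x (f n)) →
      (∀ n, KLt x (f n) (f (n + 1))) → KLt x (f n) (3 * 5 ^ e)
  | trans {a b c : ℕ} : KLt x a b → KLt x b c → KLt x a c

end

open Classical in
/-- The functional `x ↦ O^x`. -/
noncomputable def OBox (x : ℕ → Bool) : ℕ → Bool := fun n => decide (KO x n)

end Pool.Agent.Q116.CL
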