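import Pool.Agent.Q116.CL.Basic

/-!
A functional which clarifies all classes of structures and which is not injective on the range of
any Borel map.
-/

set_option autoImplicit false

namespace Pool.Agent.Q116.CL

open Encodable Cardinal Classical

/-- Disjoint pairs in a family of at most `𝔠` sets of size `𝔠`. -/
theorem exists_pairs {ι X : Type} (hι : #ι ≤ 𝔠) (S : ι → Set X) (hS : ∀ i, 𝔠 ≤ #(S i)) :
    ∃ p q : ι → X, (∀ i, p i ∈ S i ∧ q i ∈ S i ∧ p i ≠ q i) ∧
      ∀ i j, i ≠ j → p i ≠ p j ∧ p i ≠ q j ∧ q i ≠ q j := by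
  obtain ⟨r, wo, hr⟩ := Cardinal.exists_ord_eq ι
  have hpick : ∀ i, ∀ B : Set X, #B < 𝔠 → ∃ y ∈ S i, y ∉ B := by
    intro i B hB
    by_contra hn
    push Not at hn
    exact absurd ((hS i).trans (Cardinal.mk_le_mk_of_subset hn)) (not_le.2 hB)
  by_cases hne : Nonempty X
  swap
  · have : IsEmpty ι := by
      constructor
      intro i
      obtain ⟨y, -⟩ := hpick i ∅ (by simpa using Cardinal.continuum_pos)
      exact hne ⟨y⟩
    exact ⟨fun i => isEmptyElim i, fun i => isEmptyElim i, fun i => isEmptyElim i,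
      fun i => isEmptyElim i⟩
  let G : ∀ i, (∀ j, r j i → X × X) → X × X := fun i ih =>
    if h : ∃ u : X × X, u.1 ∈ S i ∧ u.2 ∈ S i ∧ u.1 ≠ u.2 ∧ ∀ j (hj : r j i),
      u.1 ≠ (ih j hj).1 ∧ u.1 ≠ (ih j hj).2 ∧ u.2 ≠ (ih j hj).1 ∧ u.2 ≠ (ih j hj).2
    then h.choose else Classical.choice inferInstance
  let F : ι → X × X := wo.toIsWellFounded.wf.fix G
  have hF : ∀ i, F i = G i fun j _ => F j := fun i => WellFounded.fix_eq _ _ _
  have key : ∀ i, (F i).1 ∈ S i ∧ (F i).2 ∈ S i ∧ (F i).1 ≠ (F i).2 ∧ ∀ j (_ : r j i),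
      (F i).1 ≠ (F j).1 ∧ (F i).1 ≠ (F j).2 ∧ (F i).2 ≠ (F j).1 ∧ (F i).2 ≠ (F j).2 := by
    intro i
    have h : ∃ u : X × X, u.1 ∈ S i ∧ u.2 ∈ S i ∧ u.1 ≠ u.2 ∧ ∀ j (_ : r j i),
        u.1 ≠ (F j).1 ∧ u.1 ≠ (F j).2 ∧ u.2 ≠ (F j).1 ∧ u.2 ≠ (F j).2 := by
      have hlt : #{j // r j i} < 𝔠 := (Cardinal.card_typein_lt i hr).trans_le hι
      let B : Set X := Set.range (fun j : {j // r j i} => (F j.1).1) ∪
        Set.range (fun j : {j // r j i} => (F j.1).2)
      have hB : #B < 𝔠 := by
        refine (Cardinal.mk_union_le _ _).trans_lt ?_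
        exact Cardinal.add_lt_of_lt Cardinal.aleph0_le_continuum
          (Cardinal.mk_range_le.trans_lt hlt) (Cardinal.mk_range_le.trans_lt hlt)
      obtain ⟨y, hy, hyB⟩ := hpick i B hB
      have hB' : #(insert y B : Set X) < 𝔠 := by
        refine (Cardinal.mk_insert_le).trans_lt ?_
        exact Cardinal.add_lt_of_lt Cardinal.aleph0_le_continuum hB
          (Cardinal.one_lt_aleph0.trans_le Cardinal.aleph0_le_continuum)
      obtain ⟨z, hz, hzB⟩ := hpick i _ hB'
      refine ⟨(y, z), hy, hz, fun h => hzB (by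
        have h' : y = z := h
        rw [← h']
        exact Set.mem_insert _ _),
        fun j hj => ⟨?_, ?_, ?_, ?_⟩⟩
      · exact fun h => hyB (Or.inl ⟨⟨j, hj⟩, h.symm⟩)
      · exact fun h => hyB (Or.inr ⟨⟨j, hj⟩, h.symm⟩)
      · exact fun h => hzB (Set.mem_insert_of_mem _ (Or.inl ⟨⟨j, hj⟩, h.symm⟩))
      · exact fun h => hzB (Set.mem_insert_of_mem _ (Or.inr ⟨⟨j, hj⟩, h.symm⟩))
    have h2 : F i = h.choose := by
      rw [hF i]
      exact dif_pos h
    rw [h2]
    exact h.choose_spec
  refine ⟨fun i => (F i).1, fun i => (F i).2, fun i => ⟨(key i).1, (key i).2.1, (key i).2.2.1⟩,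
    fun i j hij => ?_⟩
  by_cases h1 : r i j
  · have h := (key j).2.2.2 i h1
    exact ⟨h.1.symm, h.2.2.1.symm, h.2.2.2.symm⟩
  · by_cases h2 : r j i
    · have h := (key i).2.2.2 j h2
      exact ⟨h.1, h.2.1, h.2.2.2⟩
    · exact absurd (wo.toTrichotomous.trichotomous i j h1 h2) hij

/-- There are at most `𝔠` Borel maps of the Cantor space to itself. -/
theorem card_borel : #{R : (ℕ → Bool) → (ℕ → Bool) // Measurable R ∧ Function.Injective R} ≤ 𝔠 := by
  obtain ⟨b, hb, hb2⟩ :=
    MeasurableSpace.CountablyGenerated.isCountablyGenerated (α := ℕ → Bool)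
  have h1 : #{t : Set (ℕ → Bool) | MeasurableSet t} ≤ 𝔠 := by
    have h := MeasurableSpace.cardinal_measurableSet_le_continuum (s := b)
      ((Cardinal.mk_le_aleph0_iff.2 hb.to_subtype).trans Cardinal.aleph0_le_continuum)
    rw [← hb2] at h
    exact h
  have h2 : #(ℕ → {t : Set (ℕ → Bool) | MeasurableSet t}) ≤ 𝔠 := by
    rw [← Cardinal.power_def, Cardinal.mk_nat, ← Cardinal.continuum_power_aleph0]
    exact Cardinal.power_le_power_right h1
  refine le_trans (Cardinal.mk_le_of_injective (f := fun R n =>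
    (⟨{x | R.1 x n = true}, ?_⟩ : {t : Set (ℕ → Bool) | MeasurableSet t})) ?_) h2
  · have h3 : Measurable fun x => R.1 x n := (measurable_pi_apply n).comp R.2.1
    exact h3 (measurableSet_singleton true)
  · intro R R' h
    apply Subtype.ext
    funext x n
    have h3 := congrArg Subtype.val (congrFun h n)
    have h4 : R.1 x n = true ↔ R'.1 x n = true := by
      change x ∈ {x | R.1 x n = true} ↔ x ∈ {x | R'.1 x n = true}
      exact Set.ext_iff.1 h3 x
    cases hx : R.1 x n <;> cases hy : R'.1 x n <;> simp_all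

/-- Isomorphism of structures. -/
instance isoSetoid : Setoid (ℕ → Bool) where
  r A B := ∃ i, IsIso i A B
  iseqv := by
    refine ⟨fun A => ⟨id, Function.bijective_id, fun _ _ => rfl⟩, ?_, ?_⟩
    · rintro A B ⟨i, hi, hi2⟩
      refine ⟨(Equiv.ofBijective i hi).symm, (Equiv.ofBijective i hi).symm.bijective,
        fun m n => ?_⟩
      rw [hi2]
      have h1 : ∀ k, i ((Equiv.ofBijective i hi).symm k) = k :=
        (Equiv.ofBijective i hi).apply_symm_apply
      rw [h1, h1]
    · rintro A B C ⟨i, hi, hi2⟩ ⟨j, hj, hj2⟩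
      exact ⟨j ∘ i, hj.comp hi, fun m n => by rw [hi2, hj2]; rfl⟩

/-- The representative of the isomorphism class. -/
noncomputable def rep (A : ℕ → Bool) : ℕ → Bool := Quotient.out (Quotient.mk isoSetoid A)

theorem exists_iso (A : ℕ → Bool) : ∃ i, IsIso i A (rep A) :=
  isoSetoid.symm (Quotient.mk_out (s := isoSetoid) A)

/-- The isomorphism onto the representative. -/
noncomputable def iso (A : ℕ → Bool) : ℕ → ℕ := (exists_iso A).choose

theorem iso_spec (A : ℕ → Bool) : IsIso (iso A) A (rep A) := (exists_iso A).choose_spec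

theorem rep_eq {A B : ℕ → Bool} (h : ∃ i, IsIso i A B) : rep A = rep B := by
  unfold rep
  rw [Quotient.sound (s := isoSetoid) h]

/-- The real `z` codes the isomorphism of `A` onto its representative. -/
def Good (z A : ℕ → Bool) : Prop :=
  ∃ j, ∀ m k, z (Nat.pair j (Nat.pair m k)) = true ↔ iso A m = k

/-- A real which is good for two structures. -/
noncomputable def two (A B : ℕ → Bool) : ℕ → Bool := fun q =>
  if q.unpair.1 = 0 then decide (iso A q.unpair.2.unpair.1 = q.unpair.2.unpair.2)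
  else decide (iso B q.unpair.2.unpair.1 = q.unpair.2.unpair.2)

theorem two_left (A B : ℕ → Bool) : Good (two A B) A := ⟨0, fun m k => by simp [two]⟩

theorem two_right (A B : ℕ → Bool) : Good (two A B) B := ⟨1, fun m k => by simp [two]⟩

theorem clarify {A B z w : ℕ → Bool} (hAB : ∃ i, IsIso i A B) (hz : Good z A) (hw : Good w B) :
    ∃ i, IsIso i A B ∧ ComputableFrom i (join z w) := by
  obtain ⟨j, hj⟩ := hz
  obtain ⟨j', hj'⟩ := hw
  have hA := iso_spec A
  have hB := iso_spec B
  rw [← rep_eq hAB] at hB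
  let e := Equiv.ofBijective (iso B) hB.1
  have he : ∀ k, iso B (e.symm k) = k := e.apply_symm_apply
  have hinj : ∀ n k, iso B n = iso A k → n = e.symm (iso A k) := by
    intro n k h
    apply hB.1.1
    rw [he, h]
  refine ⟨fun m => e.symm (iso A m), ⟨e.symm.bijective.comp hA.1, fun m n => ?_⟩, ?_⟩
  · rw [hA.2, hB.2, he, he]
  · have hc : Primrec fun q : (List Bool × ℕ) × ℕ =>
        (q.1.1.getD (2 * Nat.pair j (Nat.pair q.1.2 q.2.unpair.2)) false &&
          q.1.1.getD (2 * Nat.pair j' (Nat.pair q.2.unpair.1 q.2.unpair.2) + 1) false) := by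
      have h1 : Primrec fun q : (List Bool × ℕ) × ℕ => q.1.1 := Primrec.fst.comp Primrec.fst
      have h2 : Primrec fun q : (List Bool × ℕ) × ℕ => q.1.2 := Primrec.snd.comp Primrec.fst
      have h3 : Primrec fun q : (List Bool × ℕ) × ℕ => q.2.unpair.1 :=
        Primrec.fst.comp (Primrec.unpair.comp Primrec.snd)
      have h4 : Primrec fun q : (List Bool × ℕ) × ℕ => q.2.unpair.2 :=
        Primrec.snd.comp (Primrec.unpair.comp Primrec.snd)
      refine Primrec.and.comp ((Primrec.list_getD false).comp h1 ?_)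
        ((Primrec.list_getD false).comp h1 ?_)
      · exact Primrec.nat_mul.comp (Primrec.const 2) (Primrec₂.natPair.comp (Primrec.const j)
          (Primrec₂.natPair.comp h2 h4))
      · exact Primrec.succ.comp (Primrec.nat_mul.comp (Primrec.const 2)
          (Primrec₂.natPair.comp (Primrec.const j') (Primrec₂.natPair.comp h3 h4)))
    have hg : Partrec fun p : List Bool × ℕ => (Nat.rfind fun s =>
        (Part.some (p.1.getD (2 * Nat.pair j (Nat.pair p.2 s.unpair.2)) false &&
          p.1.getD (2 * Nat.pair j' (Nat.pair s.unpair.1 s.unpair.2) + 1) false) : Part Bool)).map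
            fun s => s.unpair.1 := by
      have hc2 : Computable₂ fun (p : List Bool × ℕ) (s : ℕ) =>
          (p.1.getD (2 * Nat.pair j (Nat.pair p.2 s.unpair.2)) false &&
            p.1.getD (2 * Nat.pair j' (Nat.pair s.unpair.1 s.unpair.2) + 1) false) :=
        hc.to_comp.to₂
      refine Partrec.map (Partrec.rfind hc2.partrec₂) ?_
      exact ((Primrec.fst.comp (Primrec.unpair.comp Primrec.snd)).to_comp).to₂
    obtain ⟨ix, hix⟩ := exists_index hg
    have hl : ∀ l q, (ini (join z w) l).getD (2 * q) false = true ↔ 2 * q < l ∧ z q = true := by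
      intro l q
      rw [ini_getD]
      unfold join
      have h1 : 2 * q % 2 = 0 := by omega
      have h2 : 2 * q / 2 = q := by omega
      simp [h1, h2]
    have hr : ∀ l q, (ini (join z w) l).getD (2 * q + 1) false = true ↔
        2 * q + 1 < l ∧ w q = true := by
      intro l q
      rw [ini_getD]
      unfold join
      have h2 : (2 * q + 1) / 2 = q := by omega
      simp [h2]
    refine ⟨ix, fun m => Phi_complete (fun l v hv => ?_) ?_⟩
    · rw [hix] at hv
      obtain ⟨s, hs, rfl⟩ := (Part.mem_map_iff _).1 hv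
      have hs' := (Nat.mem_rfind.1 hs).1
      rw [Part.mem_some_iff] at hs'
      have hs2 := hs'.symm
      rw [Bool.and_eq_true, hl, hr, hj, hj'] at hs2
      exact hinj _ _ (hs2.2.2.trans hs2.1.2.symm)
    · have h1 : z (Nat.pair j (Nat.pair m (iso A m))) = true := (hj _ _).2 rfl
      have h2 : w (Nat.pair j' (Nat.pair (e.symm (iso A m)) (iso A m))) = true :=
        (hj' _ _).2 (he _)
      refine ⟨2 * Nat.pair j (Nat.pair m (iso A m)) +
        2 * Nat.pair j' (Nat.pair (e.symm (iso A m)) (iso A m)) + 2, ?_⟩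
      rw [hix]
      have hd : (Nat.rfind fun s =>
          (Part.some ((ini (join z w) (2 * Nat.pair j (Nat.pair m (iso A m)) +
            2 * Nat.pair j' (Nat.pair (e.symm (iso A m)) (iso A m)) + 2)).getD
            (2 * Nat.pair j (Nat.pair m s.unpair.2)) false &&
            (ini (join z w) (2 * Nat.pair j (Nat.pair m (iso A m)) +
            2 * Nat.pair j' (Nat.pair (e.symm (iso A m)) (iso A m)) + 2)).getD
            (2 * Nat.pair j' (Nat.pair s.unpair.1 s.unpair.2) + 1) false) : Part Bool)).Dom := by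
        refine Nat.rfind_dom'.2 ⟨Nat.pair (e.symm (iso A m)) (iso A m), ?_, fun _ => trivial⟩
        rw [Part.mem_some_iff, eq_comm, Bool.and_eq_true, hl, hr]
        simp only [Nat.unpair_pair]
        exact ⟨⟨by omega, h1⟩, ⟨by omega, h2⟩⟩
      refine (Part.mem_map_iff _).2 ⟨_, Part.get_mem hd, ?_⟩
      have hs' := (Nat.mem_rfind.1 (Part.get_mem hd)).1
      rw [Part.mem_some_iff] at hs'
      have hs2 := hs'.symm
      rw [Bool.and_eq_true, hl, hr, hj, hj'] at hs2
      exact hinj _ _ (hs2.2.2.trans hs2.1.2.symm)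

theorem main : ∃ F : (ℕ → Bool) → (ℕ → Bool), (∀ K, Clarifies F K) ∧
    ∀ R : (ℕ → Bool) → (ℕ → Bool), Measurable R → ∃ x y, x ≠ y ∧ F (R x) = F (R y) := by
  obtain ⟨p, q, h1, h2⟩ := exists_pairs card_borel (fun R => Set.range R.1) (fun R => by
    rw [Cardinal.mk_range_eq _ R.2.2]
    simp)
  let F : (ℕ → Bool) → (ℕ → Bool) := fun A =>
    if h : ∃ R, A = p R ∨ A = q R then two (p h.choose) (q h.choose) else two A A
  have hgood : ∀ A, Good (F A) A := by
    intro A
    by_cases h : ∃ R, A = p R ∨ A = q R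
    · have hF : F A = two (p h.choose) (q h.choose) := dif_pos h
      rw [hF]
      have k1 : ∀ P Q, A = P → Good (two P Q) A := by
        rintro P Q rfl
        exact two_left _ _
      have k2 : ∀ P Q, A = Q → Good (two P Q) A := by
        rintro P Q rfl
        exact two_right _ _
      rcases h.choose_spec with hA | hA
      · exact k1 _ _ hA
      · exact k2 _ _ hA
    · have hF : F A = two A A := dif_neg h
      rw [hF]
      exact two_left A A
  have hp : ∀ R, F (p R) = two (p R) (q R) := by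
    intro R
    have h : ∃ R', p R = p R' ∨ p R = q R' := ⟨R, Or.inl rfl⟩
    have hF : F (p R) = two (p h.choose) (q h.choose) := dif_pos h
    have hR : h.choose = R := by
      by_contra hn
      rcases h.choose_spec with hA | hA
      · exact (h2 _ _ (Ne.symm hn)).1 hA
      · exact (h2 _ _ (Ne.symm hn)).2.1 hA
    rw [hF, hR]
  have hq : ∀ R, F (q R) = two (p R) (q R) := by
    intro R
    have h : ∃ R', q R = p R' ∨ q R = q R' := ⟨R, Or.inr rfl⟩
    have hF : F (q R) = two (p h.choose) (q h.choose) := dif_pos h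
    have hR : h.choose = R := by
      by_contra hn
      rcases h.choose_spec with hA | hA
      · exact (h2 _ _ hn).2.1 hA.symm
      · exact (h2 _ _ (Ne.symm hn)).2.2 hA
    rw [hF, hR]
  refine ⟨F, fun K A _ B _ h => clarify h (hgood A) (hgood B), fun R hR => ?_⟩
  by_cases hinj : Function.Injective R
  · obtain ⟨⟨x, hx⟩, ⟨y, hy⟩, hne⟩ := h1 ⟨R, hR, hinj⟩
    have hx' : R x = p ⟨R, hR, hinj⟩ := hx
    have hy' : R y = q ⟨R, hR, hinj⟩ := hy
    refine ⟨x, y, fun h => hne ?_, ?_⟩
    · rw [← hx', ← hy', h]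
    · rw [hx', hy', hp, hq]
  · unfold Function.Injective at hinj
    push Not at hinj
    obtain ⟨x, y, h, hxy⟩ := hinj
    exact ⟨x, y, hxy, by rw [h]⟩

end Pool.Agent.Q116.CL
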